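import Pool.Agent.H65.CRG.TL

/-!
# Approximation by odd polynomials (row QW)
-/

set_option autoImplicit false

open Filter Topology MeasureTheory

namespace Pool.Agent.H98.CRG

open Pool.Agent.H65.CRG

/-- the derivative of the odd polynomial -/
noncomputable def pd (N : ℕ) (m : ℕ → ℝ) (y : ℝ) : ℝ :=
  ∑ j ∈ Finset.range N, m j * ((2 * j + 1) * y ^ (2 * j))

theorem hasDerivAt_pm (N : ℕ) (m : ℕ → ℝ) (y : ℝ) : HasDerivAt (pm N m) (pd N m y) y := by
  have h : HasDerivAt (fun y : ℝ => ∑ j ∈ Finset.range N, m j * y ^ (2 * j + 1))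
      (∑ j ∈ Finset.range N, m j * ((2 * j + 1) * y ^ (2 * j))) y := by
    refine HasDerivAt.fun_sum fun j _ => ?_
    have h1 := (hasDerivAt_pow (2 * j + 1) y).const_mul (m j)
    rw [Nat.add_sub_cancel] at h1
    push_cast at h1
    exact h1
  exact h

theorem pd_continuous (N : ℕ) (m : ℕ → ℝ) : Continuous (pd N m) := by
  unfold pd
  fun_prop

theorem pm_continuous (N : ℕ) (m : ℕ → ℝ) : Continuous (pm N m) := by
  unfold pm
  fun_prop

theorem pm_zero (N : ℕ) (m : ℕ → ℝ) : pm N m 0 = 0 := by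
  unfold pm
  refine Finset.sum_eq_zero fun j _ => ?_
  rw [pow_succ, mul_zero, mul_zero]

/-- the even part of a polynomial -/
theorem even_part (c : ℕ → ℝ) (y : ℝ) (N : ℕ) :
    ∑ i ∈ Finset.range (2 * N), c i * y ^ i + ∑ i ∈ Finset.range (2 * N), c i * (-y) ^ i =
      2 * ∑ j ∈ Finset.range N, c (2 * j) * y ^ (2 * j) := by
  induction N with
  | zero => simp
  | succ N ih =>
    rw [show 2 * (N + 1) = 2 * N + 1 + 1 by ring, Finset.sum_range_succ, Finset.sum_range_succ,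
      Finset.sum_range_succ (fun i => c i * (-y) ^ i), Finset.sum_range_succ (fun i => c i * (-y) ^ i),
      Finset.sum_range_succ (fun j => c (2 * j) * y ^ (2 * j)), mul_add, ← ih]
    have h1 : (-y) ^ (2 * N) = y ^ (2 * N) := Even.neg_pow ⟨N, by ring⟩ y
    have h2 : (-y) ^ (2 * N + 1) = -(y ^ (2 * N + 1)) := Odd.neg_pow ⟨N, rfl⟩ y
    rw [h1, h2]
    ring

theorem approx (p p₁ : ℝ → ℝ) (hp : ∀ y, HasDerivAt p (p₁ y) y) (hc : Continuous p₁)
    (hodd : ∀ y, p (-y) = -p y) (η : ℝ) (hη : 0 < η) :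
    ∃ (N : ℕ) (m : ℕ → ℝ), ∀ y ∈ Set.Icc (-(1 / 2) : ℝ) (1 / 2),
      |pm N m y - p y| ≤ η ∧ |pd N m y - p₁ y| ≤ η := by
  obtain ⟨q, hq⟩ := exists_polynomial_near_of_continuousOn (-(1 / 2)) (1 / 2) p₁ hc.continuousOn η hη
  obtain ⟨N, hN⟩ : ∃ N : ℕ, q.natDegree < 2 * N := ⟨q.natDegree + 1, by omega⟩
  obtain ⟨m, hm⟩ : ∃ m : ℕ → ℝ, ∀ j, m j = q.coeff (2 * j) / (2 * j + 1) := ⟨_, fun j => rfl⟩
  have heven : ∀ y, p₁ (-y) = p₁ y := by
    intro y
    have h1 : HasDerivAt (fun y => p (-y)) (-p₁ (-y)) y := by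
      have := (hp (-y)).comp y (hasDerivAt_neg y)
      rw [mul_neg_one] at this
      exact this
    have h2 : HasDerivAt (fun y => p (-y)) (-p₁ y) y := by
      have : (fun y => p (-y)) = fun y => -p y := funext hodd
      rw [this]
      exact (hp y).neg
    have := h1.unique h2
    linarith
  have hpd : ∀ y, pd N m y = (q.eval y + q.eval (-y)) / 2 := by
    intro y
    rw [Polynomial.eval_eq_sum_range' hN, Polynomial.eval_eq_sum_range' hN, even_part]
    rw [mul_div_cancel_left₀ _ (two_ne_zero)]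
    unfold pd
    refine Finset.sum_congr rfl fun j _ => ?_
    rw [hm]
    have : (2 * (j : ℝ) + 1) ≠ 0 := by positivity
    field_simp
  have h2 : ∀ y ∈ Set.Icc (-(1 / 2) : ℝ) (1 / 2), |pd N m y - p₁ y| ≤ η := by
    intro y hy
    have hy' : -y ∈ Set.Icc (-(1 / 2) : ℝ) (1 / 2) := ⟨by linarith [hy.2], by linarith [hy.1]⟩
    have h3 := hq y hy
    have h4 := hq (-y) hy'
    rw [heven] at h4
    rw [hpd, abs_le]
    rw [abs_lt] at h3 h4
    constructor <;> linarith [h3.1, h3.2, h4.1, h4.2]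
  have hp0 : p 0 = 0 := by
    have := hodd 0
    rw [neg_zero] at this
    linarith
  refine ⟨N, m, fun y hy => ⟨?_, h2 y hy⟩⟩
  have h3 := Convex.norm_image_sub_le_of_norm_hasDerivWithin_le
    (f := fun y => pm N m y - p y) (f' := fun y => pd N m y - p₁ y) (C := η)
    (s := Set.Icc (-(1 / 2) : ℝ) (1 / 2)) (x := 0) (y := y)
    (fun z _ => ((hasDerivAt_pm N m z).sub (hp z)).hasDerivWithinAt)
    (fun z hz => h2 z hz) (convex_Icc _ _) ⟨by norm_num, by norm_num⟩ hy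
  rw [pm_zero, hp0, sub_zero, sub_zero, sub_zero, Real.norm_eq_abs, Real.norm_eq_abs] at h3
  have h4 : |y| ≤ 1 := by
    rw [abs_le]
    constructor <;> linarith [hy.1, hy.2]
  refine h3.trans ?_
  nlinarith

/-- the function `e^(Rv) (1 + p(1/2 - v))/c` -/
noncomputable def gf (p : ℝ → ℝ) (R c v : ℝ) : ℝ := Real.exp (R * v) * ((1 + p (1 / 2 - v)) / c)

/-- its derivative -/
noncomputable def gd (p p₁ : ℝ → ℝ) (R c v : ℝ) : ℝ :=
  Real.exp (R * v) * ((R * (1 + p (1 / 2 - v)) - p₁ (1 / 2 - v)) / c)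

theorem gQ_deriv (N : ℕ) (m : ℕ → ℝ) (R v : ℝ) :
    deriv (gQ N m R) v = gd (pm N m) (pd N m) R (1 + pm N m (1 / 2)) v := by
  have h1 : HasDerivAt (fun v : ℝ => Real.exp (R * v)) (Real.exp (R * v) * R) v := by
    have := (hasDerivAt_id v).const_mul R
    have h2 := this.exp
    rw [mul_one] at h2
    exact h2
  have h2 : HasDerivAt (fun v : ℝ => pm N m (1 / 2 - v)) (-pd N m (1 / 2 - v)) v := by
    have h3 : HasDerivAt (fun v : ℝ => 1 / 2 - v) (-1) v := (hasDerivAt_id v).const_sub (1 / 2)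
    have h4 := (hasDerivAt_pm N m (1 / 2 - v)).comp v h3
    rw [mul_neg_one] at h4
    exact h4
  have h3 : HasDerivAt (gQ N m R) (Real.exp (R * v) * R * Qm N m v +
      Real.exp (R * v) * (-pd N m (1 / 2 - v) / (1 + pm N m (1 / 2)))) v := by
    have h4 : HasDerivAt (Qm N m) (-pd N m (1 / 2 - v) / (1 + pm N m (1 / 2))) v :=
      (h2.const_add 1).div_const _
    exact h1.mul h4
  rw [h3.deriv]
  unfold gd Qm
  ring

theorem cQ_eq (N : ℕ) (m : ℕ → ℝ) (R x : ℝ) :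
    cQ N m R x = JF (gf (pm N m) R (1 + pm N m (1 / 2)))
      (gd (pm N m) (pd N m) R (1 + pm N m (1 / 2))) x := by
  have h1 : ∀ v, gQ N m R v = gf (pm N m) R (1 + pm N m (1 / 2)) v := fun v => rfl
  unfold cQ JF
  simp only [gQ_deriv, h1]

/-- pointwise and dominated convergence of the squares -/
theorem int_tendsto (F : ℕ → ℝ → ℝ) (f : ℝ → ℝ) (M : ℝ) (hF : ∀ k, Continuous (F k))
    (hb : ∀ᶠ k in atTop, ∀ v ∈ Set.Icc (0 : ℝ) 1, |F k v| ≤ M)
    (hl : ∀ v ∈ Set.Icc (0 : ℝ) 1, Tendsto (fun k => F k v) atTop (𝓝 (f v))) :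
    Tendsto (fun k => ∫ v in (0 : ℝ)..1, F k v ^ 2) atTop (𝓝 (∫ v in (0 : ℝ)..1, f v ^ 2)) := by
  have hio : Set.uIoc (0 : ℝ) 1 ⊆ Set.Icc 0 1 := by
    rw [Set.uIoc_of_le zero_le_one]
    exact Set.Ioc_subset_Icc_self
  refine intervalIntegral.tendsto_integral_filter_of_dominated_convergence (fun _ => M ^ 2) ?_ ?_ ?_ ?_
  · exact Eventually.of_forall fun k => ((hF k).pow 2).aestronglyMeasurable
  · filter_upwards [hb] with k hk
    refine Eventually.of_forall fun v hv => ?_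
    rw [Real.norm_eq_abs, abs_pow]
    exact pow_le_pow_left₀ (abs_nonneg _) (hk v (hio hv)) 2
  · exact intervalIntegrable_const
  · exact Eventually.of_forall fun v hv => (hl v (hio hv)).pow 2

theorem pf_QW (h1 : T_QI) : T_QW := by
  intro p p₁ R x ε hR hx hε hp hc hodd hpos
  choose N m hNm using fun k : ℕ => approx p p₁ hp hc hodd (1 / ((k : ℝ) + 1)) (by positivity)
  have hη : Tendsto (fun k : ℕ => 1 / ((k : ℝ) + 1)) atTop (𝓝 0) :=
    tendsto_one_div_add_atTop_nhds_zero_nat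
  have hmem : ∀ v ∈ Set.Icc (0 : ℝ) 1, 1 / 2 - v ∈ Set.Icc (-(1 / 2) : ℝ) (1 / 2) :=
    fun v hv => ⟨by linarith [hv.2], by linarith [hv.1]⟩
  have l1 : ∀ y ∈ Set.Icc (-(1 / 2) : ℝ) (1 / 2),
      Tendsto (fun k => pm (N k) (m k) y) atTop (𝓝 (p y)) := by
    intro y hy
    rw [tendsto_iff_norm_sub_tendsto_zero]
    exact squeeze_zero (fun k => norm_nonneg _) (fun k => (hNm k y hy).1) hη
  have l2 : ∀ y ∈ Set.Icc (-(1 / 2) : ℝ) (1 / 2),
      Tendsto (fun k => pd (N k) (m k) y) atTop (𝓝 (p₁ y)) := by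
    intro y hy
    rw [tendsto_iff_norm_sub_tendsto_zero]
    exact squeeze_zero (fun k => norm_nonneg _) (fun k => (hNm k y hy).2) hη
  have hhalf : (1 / 2 : ℝ) ∈ Set.Icc (-(1 / 2) : ℝ) (1 / 2) := ⟨by norm_num, le_refl _⟩
  have lc : Tendsto (fun k => 1 + pm (N k) (m k) (1 / 2)) atTop (𝓝 (1 + p (1 / 2))) :=
    (l1 _ hhalf).const_add 1
  have hc2 : ∀ᶠ k in atTop, (1 + p (1 / 2)) / 2 < 1 + pm (N k) (m k) (1 / 2) :=
    lc.eventually (lt_mem_nhds (by linarith))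
  -- bounds
  obtain ⟨B, hB⟩ := (isCompact_Icc (a := (-(1 / 2) : ℝ)) (b := 1 / 2)).exists_bound_of_continuousOn
    (f := p) (fun y _ => (hp y).continuousAt.continuousWithinAt)
  obtain ⟨B₁, hB₁⟩ := (isCompact_Icc (a := (-(1 / 2) : ℝ)) (b := 1 / 2)).exists_bound_of_continuousOn
    (f := p₁) hc.continuousOn
  have hB0 : 0 ≤ B := (norm_nonneg _).trans (hB _ hhalf)
  have hB10 : 0 ≤ B₁ := (norm_nonneg _).trans (hB₁ _ hhalf)
  have hk1 : ∀ k : ℕ, 1 / ((k : ℝ) + 1) ≤ 1 := by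
    intro k
    rw [div_le_one (by positivity)]
    linarith [(Nat.cast_nonneg k : (0 : ℝ) ≤ k)]
  have b1 : ∀ k, ∀ y ∈ Set.Icc (-(1 / 2) : ℝ) (1 / 2), |pm (N k) (m k) y| ≤ B + 1 := by
    intro k y hy
    have h2 := (hNm k y hy).1
    have h3 := hB y hy
    rw [Real.norm_eq_abs] at h3
    rw [abs_le] at h2 h3 ⊢
    constructor <;> linarith [hk1 k]
  have b2 : ∀ k, ∀ y ∈ Set.Icc (-(1 / 2) : ℝ) (1 / 2), |pd (N k) (m k) y| ≤ B₁ + 1 := by
    intro k y hy
    have h2 := (hNm k y hy).2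
    have h3 := hB₁ y hy
    rw [Real.norm_eq_abs] at h3
    rw [abs_le] at h2 h3 ⊢
    constructor <;> linarith [hk1 k]
  have hexp : ∀ v ∈ Set.Icc (0 : ℝ) 1, |Real.exp (R * v)| ≤ Real.exp R := by
    intro v hv
    rw [Real.abs_exp, Real.exp_le_exp]
    nlinarith [hv.2]
  have hdiv : ∀ u K c' : ℝ, 0 ≤ K → |u| ≤ K → (1 + p (1 / 2)) / 2 < c' →
      |u / c'| ≤ K / ((1 + p (1 / 2)) / 2) := by
    intro u K c' hK hu hc'
    have h2 : 0 < (1 + p (1 / 2)) / 2 := by linarith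
    have h3 : 0 < c' := h2.trans hc'
    rw [abs_div, abs_of_pos h3]
    exact div_le_div₀ hK hu h2 hc'.le
  obtain ⟨c, hcdef⟩ : ∃ c : ℕ → ℝ, ∀ k, c k = 1 + pm (N k) (m k) (1 / 2) := ⟨_, fun k => rfl⟩
  have lg : ∀ v ∈ Set.Icc (0 : ℝ) 1, Tendsto (fun k => gf (pm (N k) (m k)) R (c k) v) atTop
      (𝓝 (gf p R (1 + p (1 / 2)) v)) := by
    intro v hv
    unfold gf
    simp only [hcdef]
    exact (((l1 _ (hmem v hv)).const_add 1).div lc hpos.ne').const_mul _
  have lgd : ∀ v ∈ Set.Icc (0 : ℝ) 1, Tendsto (fun k => gd (pm (N k) (m k)) (pd (N k) (m k)) R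
      (c k) v) atTop (𝓝 (gd p p₁ R (1 + p (1 / 2)) v)) := by
    intro v hv
    unfold gd
    simp only [hcdef]
    exact (((((l1 _ (hmem v hv)).const_add 1).const_mul R).sub (l2 _ (hmem v hv))).div lc
      hpos.ne').const_mul _
  have i1 : Tendsto (fun k => ∫ v in (0 : ℝ)..1, gf (pm (N k) (m k)) R (c k) v ^ 2) atTop
      (𝓝 (∫ v in (0 : ℝ)..1, gf p R (1 + p (1 / 2)) v ^ 2)) := by
    refine int_tendsto _ _ (Real.exp R * ((1 + (B + 1)) / ((1 + p (1 / 2)) / 2))) ?_ ?_ lg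
    · intro k
      unfold gf
      have := pm_continuous (N k) (m k)
      fun_prop
    · filter_upwards [hc2] with k hk v hv
      unfold gf
      rw [abs_mul, hcdef]
      refine mul_le_mul (hexp v hv) (hdiv _ _ _ (by positivity) ?_ hk) (abs_nonneg _)
        (Real.exp_pos _).le
      have := b1 k _ (hmem v hv)
      refine (abs_add_le _ _).trans ?_
      rw [abs_one]
      linarith
  have i2 : Tendsto (fun k => ∫ v in (0 : ℝ)..1, gd (pm (N k) (m k)) (pd (N k) (m k)) R (c k) v ^ 2)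
      atTop (𝓝 (∫ v in (0 : ℝ)..1, gd p p₁ R (1 + p (1 / 2)) v ^ 2)) := by
    refine int_tendsto _ _ (Real.exp R * ((R * (1 + (B + 1)) + (B₁ + 1)) /
      ((1 + p (1 / 2)) / 2))) ?_ ?_ lgd
    · intro k
      unfold gd
      have := pm_continuous (N k) (m k)
      have := pd_continuous (N k) (m k)
      fun_prop
    · filter_upwards [hc2] with k hk v hv
      unfold gd
      rw [abs_mul, hcdef]
      refine mul_le_mul (hexp v hv) (hdiv _ _ _ (by positivity) ?_ hk) (abs_nonneg _)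
        (Real.exp_pos _).le
      have h3 := b1 k _ (hmem v hv)
      have h4 := b2 k _ (hmem v hv)
      refine (abs_sub _ _).trans ?_
      rw [abs_mul, abs_of_pos hR]
      have h5 : |1 + pm (N k) (m k) (1 / 2 - v)| ≤ 1 + (B + 1) := by
        refine (abs_add_le _ _).trans ?_
        rw [abs_one]
        linarith
      nlinarith
  have l3 : Tendsto (fun k => cQ (N k) (m k) R x) atTop (𝓝 (JF (gf p R (1 + p (1 / 2)))
      (gd p p₁ R (1 + p (1 / 2))) x)) := by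
    have h2 : (fun k => cQ (N k) (m k) R x) = fun k => JF (gf (pm (N k) (m k)) R (c k))
        (gd (pm (N k) (m k)) (pd (N k) (m k)) R (c k)) x := by
      funext k
      rw [cQ_eq, hcdef]
    rw [h2]
    unfold JF
    exact (((((lg 1 ⟨zero_le_one, le_refl _⟩).pow 2).div_const 2).const_add (1 / 2)).add
      (i1.const_mul (1 / x))).add (i2.const_mul (x / 3))
  have l4 : ∀ᶠ k in atTop, |cQ (N k) (m k) R x - JF (gf p R (1 + p (1 / 2)))
      (gd p p₁ R (1 + p (1 / 2))) x| < ε := by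
    have := (Metric.tendsto_nhds.1 l3) ε hε
    filter_upwards [this] with k hk
    rw [Real.dist_eq] at hk
    exact hk
  obtain ⟨k, hk, hk2⟩ := (l4.and hc2).exists
  exact ⟨N k, m k, by linarith, hk.le⟩

end Pool.Agent.H98.CRG
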